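import Pool.Agent.R82.AE.Main

/-!
Threshold biases of the strict (1 : b) Avoider-Enforcer k-star game on the complete graph with n
vertices, for all large n: the upper threshold bias has order n^(k/(k-1)) (Q1) and the lower
threshold bias has order n^((k+1)/k) (Q2), for every fixed k ≥ 3.
-/

namespace Pool.Agent.Results.MP_64b4f3_co.StarGame

open Pool.Agent.R82.AE

/-- For every `k ≥ 3` the upper threshold bias of the strict `k`-star game satisfies
`fplus n k = Θ(n ^ (k / (k - 1)))` and the lower threshold bias satisfies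
`fminus n k = Θ(n ^ ((k + 1) / k))`, both for all sufficiently large `n`. -/
theorem result :
    (∀ k : ℕ, 3 ≤ k → ∃ c C : ℝ, 0 < c ∧ 0 < C ∧ ∀ᶠ n : ℕ in Filter.atTop,
      c * (n : ℝ) ^ ((k : ℝ) / ((k : ℝ) - 1)) ≤ (fplus n k : ℝ) ∧
      (fplus n k : ℝ) ≤ C * (n : ℝ) ^ ((k : ℝ) / ((k : ℝ) - 1))) ∧
    (∀ k : ℕ, 3 ≤ k → ∃ c C : ℝ, 0 < c ∧ 0 < C ∧ ∀ᶠ n : ℕ in Filter.atTop,
      c * (n : ℝ) ^ (((k : ℝ) + 1) / (k : ℝ)) ≤ (fminus n k : ℝ) ∧
      (fminus n k : ℝ) ≤ C * (n : ℝ) ^ (((k : ℝ) + 1) / (k : ℝ))) :=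
  ⟨fun _ hk => upper_threshold hk, fun _ hk => lower_threshold hk⟩

end Pool.Agent.Results.MP_64b4f3_co.StarGame
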